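import Pool.Agent.helper91.ADV.SpecM

/-! Project ADV (MP_069684_lc), row MPG: polynomial growth of the advantage bound. -/

set_option autoImplicit false

namespace Pool.Agent.ADV

open Finset Pool.Agent.helper38.Neg Pool.Agent.helper55.NT Pool.Agent.LNB

theorem MPG (h1 : GRA_stmt) : MPG_stmt := by
  intro u K γ h
  obtain ⟨A, hA1, hA2, hA3⟩ := h1 u
  obtain ⟨p, hp⟩ := h A hA1 hA2
  obtain ⟨k, hk⟩ := eval_le_two_pow p
  obtain ⟨c, hc⟩ := hA3 K γ k 1 le_rfl (by
    intro n D hD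
    obtain ⟨s, hs, C, o, h2, h3⟩ := hp n D hD
    refine ⟨s, hs.trans ?_, C, o, h2, h3⟩
    exact hk n)
  refine ⟨c, fun n => ?_⟩
  have h2 := hc n
  rw [mul_one] at h2
  exact h2

end Pool.Agent.ADV
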